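import Pool.Agent.Helper94.KC.Goals

/-! Packet KC-UN: exchange of two colours on a union of Kempe chains. -/

set_option autoImplicit false

namespace Pool.Agent.Helper86.KC

open scoped Classical
open Finset
open Pool.Agent.Helper94.KC

/-- a chain starting in `S` stays in `S` -/
theorem chain_mem {V : Type} {G : SimpleGraph V} {f : V → Fin 5} {a b : Fin 5} {S : Finset V}
    (hS : ∀ x ∈ S, ∀ y, G.Adj x y → (f y = a ∨ f y = b) → y ∈ S)
    {u v : {v | f v = a ∨ f v = b}} (w : (G.induce {v | f v = a ∨ f v = b}).Walk u v)
    (hu : (u : V) ∈ S) : (v : V) ∈ S := by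
  induction w with
  | nil => exact hu
  | @cons u v' _ h p ih =>
    apply ih
    exact hS u hu v' h v'.2

theorem inChain_mem {V : Type} {G : SimpleGraph V} {f : V → Fin 5} {a b : Fin 5} {S : Finset V}
    (hS : ∀ x ∈ S, ∀ y, G.Adj x y → (f y = a ∨ f y = b) → y ∈ S) {x y : V} (hx : x ∈ S)
    (h : InChain G f a b x y) : y ∈ S := by
  obtain ⟨h1, h2, ⟨w⟩⟩ := h
  exact chain_mem hS w hx

theorem inChain_adj {V : Type} {G : SimpleGraph V} {f : V → Fin 5} {a b : Fin 5} {x y z : V}
    (h : InChain G f a b x y) (hyz : G.Adj y z) (hz : f z = a ∨ f z = b) :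
    InChain G f a b x z := by
  obtain ⟨h1, h2, h3⟩ := h
  refine ⟨h1, hz, h3.trans ?_⟩
  exact SimpleGraph.Adj.reachable (show (G.induce {v | f v = a ∨ f v = b}).Adj ⟨y, h2⟩ ⟨z, hz⟩
    from hyz)

theorem swap_mem {a b c : Fin 5} :
    (Equiv.swap a b c = a ∨ Equiv.swap a b c = b) ↔ (c = a ∨ c = b) := by
  constructor
  · rintro (h | h)
    · right
      have := congrArg (Equiv.swap a b) h
      rw [Equiv.swap_apply_self, Equiv.swap_apply_left] at this
      exact this
    · left
      have := congrArg (Equiv.swap a b) h
      rw [Equiv.swap_apply_self, Equiv.swap_apply_right] at this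
      exact this
  · rintro (h | h)
    · right
      rw [h, Equiv.swap_apply_left]
    · left
      rw [h, Equiv.swap_apply_right]

theorem un : StmtUN := by
  intro V _ G f a b S hS1 hS2
  induction hn : S.card using Nat.strong_induction_on generalizing S f with
  | _ n ih =>
    rcases S.eq_empty_or_nonempty with hS | ⟨x, hx⟩
    · subst hS
      have h1 : (fun y => if y ∈ (∅ : Finset V) then Equiv.swap a b (f y) else f y) = f := by
        funext y
        rw [if_neg (Finset.notMem_empty y)]
      rw [h1]
      exact Relation.ReflTransGen.refl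
    · set f' : V → Fin 5 := fun y => if InChain G f a b x y then Equiv.swap a b (f y) else f y
        with hf'
      have fpos : ∀ y, InChain G f a b x y → f' y = Equiv.swap a b (f y) := fun y hy => if_pos hy
      have fneg : ∀ y, ¬ InChain G f a b x y → f' y = f y := fun y hy => if_neg hy
      have hM : ∀ y, (f' y = a ∨ f' y = b) ↔ (f y = a ∨ f y = b) := by
        intro y
        by_cases h : InChain G f a b x y
        · rw [fpos y h, swap_mem]
        · rw [fneg y h]
      have hstep : KStep G f f' := ⟨a, b, x, hS1 x hx, fun y => ⟨fpos y, fneg y⟩⟩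
      set S' : Finset V := S.filter (fun y => ¬ InChain G f a b x y) with hS'
      have hmem : ∀ y, y ∈ S' ↔ y ∈ S ∧ ¬ InChain G f a b x y := fun y => Finset.mem_filter
      have hxx : InChain G f a b x x := ⟨hS1 x hx, hS1 x hx, SimpleGraph.Reachable.refl _⟩
      have hlt : S'.card < S.card := by
        apply Finset.card_lt_card
        refine ⟨Finset.filter_subset _ _, fun h => ?_⟩
        exact ((hmem x).1 (h hx)).2 hxx
      have h1 : KEq G f' (fun y => if y ∈ S' then Equiv.swap a b (f' y) else f' y) := by
        refine ih S'.card (hn ▸ hlt) f' S' ?_ ?_ rfl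
        · intro y hy
          rw [hM]
          exact hS1 y ((hmem y).1 hy).1
        · intro y hy z hyz hz
          rw [hM] at hz
          obtain ⟨hyS, hyC⟩ := (hmem y).1 hy
          refine (hmem z).2 ⟨hS2 y hyS z hyz hz, fun hzC => hyC ?_⟩
          exact inChain_adj hzC hyz.symm (hS1 y hyS)
      have h2 : (fun y => if y ∈ S' then Equiv.swap a b (f' y) else f' y)
          = fun y => if y ∈ S then Equiv.swap a b (f y) else f y := by
        funext y
        by_cases hC : InChain G f a b x y
        · have hyS : y ∈ S := inChain_mem hS2 hx hC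
          rw [if_neg (fun h => ((hmem y).1 h).2 hC), if_pos hyS, fpos y hC]
        · by_cases hyS : y ∈ S
          · rw [if_pos ((hmem y).2 ⟨hyS, hC⟩), if_pos hyS, fneg y hC]
          · rw [if_neg (fun h => hyS ((hmem y).1 h).1), if_neg hyS, fneg y hC]
      rw [h2] at h1
      exact Relation.ReflTransGen.head hstep h1

end Pool.Agent.Helper86.KC
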