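import Pool.Agent.Helper94.KC.GoalsC

/-! Packet KC-MM: number of hubs. -/

set_option autoImplicit false

namespace Pool.Agent.Helper86.KC

open scoped Classical
open Finset
open Pool.Agent.Helper94.KC

theorem mm (hCN : StmtCN) : StmtMM := by
  intro V _ T hT hdeg
  have h1 := hCN V T hT univ
  have hk : ∀ k, k ≠ 3 → tk T univ k = 0 := by
    intro k hk
    unfold tk
    rw [Finset.card_eq_zero, Finset.filter_eq_empty_iff]
    intro t ht h
    rw [Finset.inter_univ, hT.card t ht] at h
    exact hk h.symm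
  have hchi : chiW T univ = chi T := by
    unfold chiW chi edW trW
    rw [Finset.filter_true_of_mem (fun e _ => Finset.subset_univ e),
      Finset.filter_true_of_mem (fun e _ => Finset.subset_univ e), Finset.card_univ]
  rw [hk 1 (by norm_num), hk 2 (by norm_num), hchi] at h1
  have htot : ∑ x : V, ((dg T x : ℤ) - 6) = -6 * chi T := by
    push_cast at h1
    linarith
  have hnn : ∀ x : V, 0 ≤ (dg T x : ℤ) - 6 := by
    intro x
    have : (6 : ℤ) ≤ dg T x := by exact_mod_cast hdeg x
    linarith
  have hW : ∀ W : Finset V, ∑ x ∈ W, ((dg T x : ℤ) - 6) ≤ -6 * chi T := by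
    intro W
    rw [← htot]
    exact Finset.sum_le_sum_of_subset_of_nonneg (Finset.subset_univ W) (fun x _ _ => hnn x)
  refine ⟨?_, hW⟩
  refine le_trans ?_ (hW (univ.filter (fun v => 7 ≤ dg T v)))
  have h2 : ((univ.filter (fun v => 7 ≤ dg T v)).card : ℤ)
      = ∑ _x ∈ univ.filter (fun v => 7 ≤ dg T v), (1 : ℤ) := by
    rw [Finset.sum_const, nsmul_eq_mul, mul_one]
  rw [h2]
  refine Finset.sum_le_sum fun x hx => ?_
  have h3 : (7 : ℤ) ≤ dg T x := by exact_mod_cast (Finset.mem_filter.1 hx).2
  linarith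

end Pool.Agent.Helper86.KC
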